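import Pool.Agent.Work.MP_eb7862_gt.Swindle
import Pool.Agent.Work.MP_eb7862_gt.Cp

universe u

namespace Pool.Agent.Results.MP_eb7862_gt.Full

open Pool.Agent.Work.MP_eb7862_gt

/-- For every compact Hausdorff space `X` there are a homogeneous compact Hausdorff space `Y` and
a continuous surjection `q : Y → X`; composition with `q` is a linear topological embedding of
`C_p(X)` in `C_p(Y)` (continuous real functions with the topology of pointwise convergence). -/
theorem result (X : Type u) [TopologicalSpace X] [CompactSpace X] [T2Space X] :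
    ∃ (Y : Type u) (_ : TopologicalSpace Y), CompactSpace Y ∧ T2Space Y ∧
      (∀ y y' : Y, ∃ h : Y ≃ₜ Y, h y = y') ∧
      ∃ q : Y → X, Continuous q ∧ Function.Surjective q ∧
        ∃ T : continuousSubmodule X ℝ ℝ →ₗ[ℝ] continuousSubmodule Y ℝ ℝ,
          Topology.IsEmbedding T ∧ ∀ f y, (T f).1 y = f.1 (q y) := by
  obtain ⟨Y, _, h1, h2, h3, q, hq, hq'⟩ := exists_homogeneous_onto X
  exact ⟨Y, inferInstance, h1, h2, h3, q, hq, hq', exists_linear_embedding q hq hq'⟩

end Pool.Agent.Results.MP_eb7862_gt.Full
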